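import Pool.Agent.Helper487.Jack.Final8
import Pool.Agent.Helper487.Jack.Exist

open Finset MvPolynomial Helper487.Jack

namespace Pool.Agent.Results.MP_e60a9a_co.NonRealZero

/-!
# A non-real zero for `μ = (8, 8)`, `λ = (2^8)`

The definitions of symmetric functions, of the scalar products, of Jack and Schur functions are
in `Pool.Agent.Helper487.Jack.Defs`.

Proof. Let `g_r` be given by `∑ g_r z^r = ∏ (1 - x_i z)^{-α}`. For `m = 8`,
`J̃_{(m,m)} = m! ∑_{r=0}^{2m} γ_r g_r g_{2m-r}` with
`γ_r = (-1)^i α(α-1)⋯(α-i+1) (α+i+1)⋯(α+m)`, `i = |r - m|`; this is proved by showing that the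
right side is unitriangular up to the scalar `α^{2m} ∏ (a(s)/α + l(s) + 1)` and orthogonal to all
lower monomial functions. Its scalar product with `s_{(2^m)} = e_m² - e_{m+1} e_{m-1}` is an
explicit polynomial in `α`. The polynomial identities in `α` are checked at `0, 1, …, 24`. The
resulting polynomial `∑ a_k z^k` violates the Laguerre inequality `p'(x)² ≥ p(x) p''(x)` at
`x = -10`, so it has a zero that is not real.
-/

/-- The indeterminate `α` of the field `ℚ(α)`. -/
noncomputable def al : RatFunc ℚ := RatFunc.X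

/-- The partition `μ = (8, 8)` of `16`. -/
def mu : Nat.Partition 16 where
  parts := Multiset.replicate 2 8
  parts_pos := fun {i} hi => by
    rw [Multiset.eq_of_mem_replicate hi]
    norm_num
  parts_sum := by simp

/-- The partition `λ = (2, 2, 2, 2, 2, 2, 2, 2)` of `16`. -/
def lam : Nat.Partition 16 where
  parts := Multiset.replicate 8 2
  parts_pos := fun {i} hi => by
    rw [Multiset.eq_of_mem_replicate hi]
    norm_num
  parts_sum := by simp

/-- `J̃_μ^{(α)} = α^n J_μ^{(1/α)}`, where `P` is `P_μ^{(1/α)}`. -/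
noncomputable def Jtilde {n : ℕ} (μ : n.Partition) (P : SymFun (RatFunc ℚ)) :
    SymFun (RatFunc ℚ) :=
  al ^ n • hookNorm al⁻¹ μ • P

/-- `binom(α + k, n)`. -/
noncomputable def alBinom (n k : ℕ) : RatFunc ℚ :=
  (∏ j ∈ range n, (al + (k : RatFunc ℚ) - (j : RatFunc ℚ))) / (n.factorial : RatFunc ℚ)

/-- `⟨J̃_μ^{(α)}, s_λ⟩ = ∑_{k < 16} a_k binom(α + k, 16)` for `μ = (8, 8)`; here `P` is
`P_μ^{(1/α)}` and `s` is `s_λ`. -/
def IsCoords (P s : SymFun (RatFunc ℚ)) (a : Fin 16 → ℚ) : Prop :=
  pairing 1 (Jtilde mu P) s = ∑ k : Fin 16, (a k : RatFunc ℚ) * alBinom 16 k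

/-- The question asks whether every zero of `∑ a_k z^k` is real; for `n = 16`, `μ = (8, 8)`,
`λ = (2^8)` there is a zero that is not real. -/
theorem result :
    -- the Jack functions with parameter `1/α` are well defined by `IsJack`
    (∀ (n : ℕ) (μ : n.Partition), ∃! P : SymFun (RatFunc ℚ), IsJack al⁻¹ μ P) ∧
    -- a mutually orthogonal unitriangular family consists of them
    (∀ (n : ℕ) (F : n.Partition → SymFun (RatFunc ℚ)), IsJackFamily al⁻¹ F →
      ∀ μ, IsJack al⁻¹ μ (F μ)) ∧
    -- the Schur function `s_λ` is well defined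
    (∃! s : SymFun (RatFunc ℚ), IsSchur lam s) ∧
    -- the answer
    ∀ P s : SymFun (RatFunc ℚ), IsJack al⁻¹ mu P → IsSchur lam s →
      (∃! a : Fin 16 → ℚ, IsCoords P s a) ∧
      ∀ a : Fin 16 → ℚ, IsCoords P s a →
        ∃ z : ℂ, z.im ≠ 0 ∧ ∑ k : Fin 16, (a k : ℂ) * z ^ (k : ℕ) = 0 := by
  obtain ⟨φ, hφ⟩ := exists_embedding
  have hφ' : 0 < φ al⁻¹ := by
    rw [map_inv₀]
    exact inv_pos.2 hφ
  have hmu : mu.parts = Multiset.replicate 2 8 := rfl
  have hlam : lam.parts = Multiset.replicate 8 2 := rfl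
  refine ⟨fun n μ => existsUnique_isJack φ hφ' μ, fun n F hF μ => isJack_of_family hF μ, ?_, ?_⟩
  · refine ⟨_, (isSchur_iff (by norm_num) (by norm_num) hlam _).2 rfl, fun s hs => ?_⟩
    exact (isSchur_iff (by norm_num) (by norm_num) hlam _).1 hs
  · intro P s hP hs
    have hpair : pairing 1 (Jtilde mu P) s = Polynomial.aeval (RatFunc.X : RatFunc ℚ) (cP 8) :=
      pairing_Jtilde φ hφ (by norm_num) (by norm_num) hmu hlam hE8 hN8
        (aeval_vP_ne_zero 8) hP hs
    have hbin : ∀ k : ℕ, alBinom 16 k = Polynomial.aeval (RatFunc.X : RatFunc ℚ) (binP 16 k) :=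
      fun k => (aeval_binP 16 k).symm
    have hcast : ∀ q : ℚ, (q : RatFunc ℚ) =
        Polynomial.aeval (RatFunc.X : RatFunc ℚ) (Polynomial.C q) := by
      intro q
      rw [Polynomial.aeval_C]
      exact (eq_ratCast (algebraMap ℚ (RatFunc ℚ)) q).symm
    have hiff : ∀ a : Fin 16 → ℚ, IsCoords P s a ↔
        a = fun k : Fin 16 => ((a8.getD (k : ℕ) 0 : ℤ) : ℚ) := by
      intro a
      set a' : ℕ → ℚ := fun k => if h : k < 16 then a ⟨k, h⟩ else 0 with ha'
      have e1 : ∑ k : Fin 16, (a k : RatFunc ℚ) * alBinom 16 k =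
          Polynomial.aeval (RatFunc.X : RatFunc ℚ)
            (∑ k ∈ range 16, Polynomial.C (a' k) * binP 16 k) := by
        rw [map_sum, Finset.sum_range]
        apply Finset.sum_congr rfl
        intro k _
        rw [map_mul, ← hcast, hbin, ha']
        simp
      unfold IsCoords
      rw [hpair, e1, cP8_eq]
      constructor
      · intro h
        have h2 := aeval_X_injective h
        have h3 : ∑ k ∈ range 16, Polynomial.C (((a8.getD k 0 : ℤ) : ℚ) - a' k) * binP 16 k = 0 := by
          have : ∑ k ∈ range 16, Polynomial.C (((a8.getD k 0 : ℤ) : ℚ) - a' k) * binP 16 k =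
              ∑ k ∈ range 16, Polynomial.C ((a8.getD k 0 : ℤ) : ℚ) * binP 16 k -
              ∑ k ∈ range 16, Polynomial.C (a' k) * binP 16 k := by
            rw [← Finset.sum_sub_distrib]
            apply Finset.sum_congr rfl
            intro k _
            rw [Polynomial.C_sub]
            ring
          rw [this, h2, sub_self]
        have h4 := binP_coords_unique h3
        funext k
        have h5 := h4 k k.2
        have h6 : a' k = a k := by
          rw [ha']
          simp
        rw [← h6]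
        linarith
      · rintro rfl
        have h8 : ∑ k ∈ range 16, Polynomial.C ((a8.getD k 0 : ℤ) : ℚ) * binP 16 k =
            ∑ k ∈ range 16, Polynomial.C (a' k) * binP 16 k := by
          apply Finset.sum_congr rfl
          intro k hk
          rw [Finset.mem_range] at hk
          have h7 : a' k = ((a8.getD k 0 : ℤ) : ℚ) := by
            rw [ha']
            exact dif_pos hk
          rw [h7]
        rw [h8]
    refine ⟨⟨_, (hiff _).2 rfl, fun a ha => (hiff a).1 ha⟩, ?_⟩
    intro a ha
    rw [(hiff a).1 ha]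
    obtain ⟨z, hz, hz0⟩ := nonreal8
    refine ⟨z, hz, ?_⟩
    rw [← hz0, Finset.sum_range]

end Pool.Agent.Results.MP_e60a9a_co.NonRealZero
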